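import Pool.Agent.NPC.Dec
import Pool.Agent.R534.TP.Geo

/-!
# Unidirectional maintenance scheduling with unevenly spaced paths is solvable in polynomial time

An instance consists of the length `L` of the corridor, the travel time `δ`, the start times
`t₁ < ⋯ < tₘ` of the parallel train paths, and the jobs.  All the numbers are nonnegative rationals,
given by numerator and denominator (in binary).  The algorithm finds start times of the jobs such
that the number of cancelled paths is as small as possible.

Idea of the proof: in terms of the start times of the paths, a job cancels all the paths in a window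
of fixed length whose position can be chosen in an interval.  Let `K` be the set of the paths which
are kept; each job has to fit into a gap between two consecutive members of `K`.  Consider an
interval between two members of `K` and a longest job which still has to be done there.  The gap
which is used for this job is long enough for all the other jobs; so the jobs which do not fit into
it have to be done entirely on its left or entirely on its right.  This gives a dynamic program
whose states are the pairs of paths.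
-/

namespace Pool.Agent.Results.MP_2ca8f5_lc.TrainPathsInP

open Pool.Agent.NPC

/-- A nonnegative rational number: numerator and denominator. -/
abbrev Q : Type := ℕ × ℕ

/-- The value of a rational number. -/
noncomputable def val (x : Q) : ℝ := (x.1 : ℝ) / (x.2 : ℝ)

/-- A job `(r, d, p, a, b)`: release time, deadline, processing time, and the ends `a ≤ b` of the
location interval. -/
abbrev Job : Type := Q × Q × Q × Q × Q

/-- An instance `((L, δ), (t₁, …, tₘ), jobs)`. -/
abbrev Inst : Type := (Q × Q) × List Q × List Job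

/-- The conditions on the data of an instance: all the denominators are positive, `L > 0`, `δ > 0`,
`t₁ < ⋯ < tₘ`, and every job satisfies `p ≤ d - r` and `a ≤ b ≤ L`. -/
structure Valid (I : Inst) : Prop where
  L_pos : 0 < I.1.1.1 ∧ 0 < I.1.1.2
  δ_pos : 0 < I.1.2.1 ∧ 0 < I.1.2.2
  t_den : ∀ t ∈ I.2.1, 0 < t.2
  t_sorted : I.2.1.Pairwise (fun t t' => val t < val t')
  job_den : ∀ j ∈ I.2.2, 0 < j.1.2 ∧ 0 < j.2.1.2 ∧ 0 < j.2.2.1.2 ∧ 0 < j.2.2.2.1.2 ∧
    0 < j.2.2.2.2.2
  job_time : ∀ j ∈ I.2.2, val j.2.2.1 ≤ val j.2.1 - val j.1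
  job_loc : ∀ j ∈ I.2.2, val j.2.2.2.1 ≤ val j.2.2.2.2 ∧ val j.2.2.2.2 ≤ val I.1.1

/-- The path with start time `t`: the segment from `(t, 0)` to `(t + δ, L)` in the plane of pairs
(time, location). -/
def path (L δ t : ℝ) : Set (ℝ × ℝ) := segment ℝ (t, 0) (t + δ, L)

/-- The box of a job with start time `σ`, processing time `p` and location interval `[a, b]`. -/
def box (σ p a b : ℝ) : Set (ℝ × ℝ) := Set.Icc σ (σ + p) ×ˢ Set.Icc a b

/-- A schedule: the `i`-th job starts at the time `s i ∈ [r, d - p]`. -/
def Feasible (I : Inst) (s : ℕ → ℝ) : Prop :=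
  ∀ i j, I.2.2[i]? = some j → s i ∈ Set.Icc (val j.1) (val j.2.1 - val j.2.2.1)

/-- The `k`-th path is cancelled: it meets the box of some job. -/
def IsCancelled (I : Inst) (s : ℕ → ℝ) (k : ℕ) : Prop :=
  ∃ t, I.2.1[k]? = some t ∧ ∃ i j, I.2.2[i]? = some j ∧
    (path (val I.1.1) (val I.1.2) (val t) ∩
      box (s i) (val j.2.2.1) (val j.2.2.2.1) (val j.2.2.2.2)).Nonempty

/-- The number of cancelled paths. -/
noncomputable def numCancelled (I : Inst) (s : ℕ → ℝ) : ℕ := {k | IsCancelled I s k}.ncard

/-- The start times `x₀, x₁, …` form an optimal schedule. -/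
structure Optimal (I : Inst) (x : List Q) : Prop where
  length_eq : x.length = I.2.2.length
  den_pos : ∀ q ∈ x, 0 < q.2
  feasible : Feasible I (fun i => val (x.getD i (0, 1)))
  minimal : ∀ s, Feasible I s → numCancelled I (fun i => val (x.getD i (0, 1))) ≤ numCancelled I s

open Pool.Agent.R534

theorem val_eq (x : Q) : val x = TP.val x := rfl

theorem val_nonneg' (x : Q) : 0 ≤ val x := TP.val_nonneg x

theorem meets_iff {L δ t σ p a b : ℝ} (hL : 0 < L) (hδ : 0 < δ) (ha : 0 ≤ a) (hab : a ≤ b)
    (hb : b ≤ L) (hp : 0 ≤ p) : (path L δ t ∩ box σ p a b).Nonempty ↔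
      σ ≤ t + δ * b / L ∧ t + δ * a / L ≤ σ + p := by
  constructor
  · rintro ⟨⟨x, y⟩, hx, hy⟩
    unfold path at hx
    rw [segment_eq_image] at hx
    obtain ⟨θ, hθ, h⟩ := hx
    simp only [Prod.smul_mk, Prod.mk_add_mk, smul_eq_mul, mul_zero, zero_add, Prod.mk.injEq] at h
    obtain ⟨h1, h2⟩ := h
    unfold box at hy
    rw [Set.mem_prod, Set.mem_Icc, Set.mem_Icc] at hy
    simp only at hy
    obtain ⟨⟨h3, h4⟩, h5, h6⟩ := hy
    have h7 : x = t + θ * δ := by rw [← h1]; ring
    have h8 : θ ≤ b / L := by rw [le_div_iff₀ hL]; linarith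
    have h9 : a / L ≤ θ := by rw [div_le_iff₀ hL]; linarith
    have h10 : δ * b / L = (b / L) * δ := by ring
    have h11 : δ * a / L = (a / L) * δ := by ring
    rw [h10, h11]
    constructor
    · have := mul_le_mul_of_nonneg_right h8 hδ.le
      linarith
    · have := mul_le_mul_of_nonneg_right h9 hδ.le
      linarith
  · rintro ⟨h1, h2⟩
    have h10 : δ * b / L = (b / L) * δ := by ring
    have h11 : δ * a / L = (a / L) * δ := by ring
    rw [h10] at h1
    rw [h11] at h2
    have hab' : a / L ≤ b / L := div_le_div_of_nonneg_right hab hL.le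
    have ha' : 0 ≤ a / L := div_nonneg ha hL.le
    have hb' : b / L ≤ 1 := (div_le_one hL).2 hb
    set θ := max (a / L) ((σ - t) / δ) with hθ
    have e1 : a / L ≤ θ := le_max_left _ _
    have e2 : (σ - t) / δ ≤ θ := le_max_right _ _
    have e3 : θ ≤ b / L := by
      apply max_le hab'
      rw [div_le_iff₀ hδ]
      linarith
    have e4 : θ * δ ≤ σ + p - t := by
      rcases max_choice (a / L) ((σ - t) / δ) with h | h
      · rw [hθ, h]; linarith
      · rw [hθ, h, div_mul_cancel₀ _ hδ.ne']; linarith
    have e5 : σ - t ≤ θ * δ := by rwa [div_le_iff₀ hδ] at e2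
    refine ⟨(t + θ * δ, θ * L), ?_, ?_⟩
    · unfold path
      rw [segment_eq_image]
      refine ⟨θ, ⟨by linarith, by linarith⟩, ?_⟩
      simp only [Prod.smul_mk, Prod.mk_add_mk, smul_eq_mul, mul_zero, zero_add, Prod.mk.injEq,
        and_true]
      ring
    · unfold box
      rw [Set.mem_prod, Set.mem_Icc, Set.mem_Icc]
      simp only
      refine ⟨⟨by linarith, by linarith⟩, ?_, ?_⟩
      · rwa [div_le_iff₀ hL] at e1
      · rwa [le_div_iff₀ hL] at e3

/-- the preprocessed jobs -/
def pre (I : Inst) : List Job := I.2.2.map (TP.pj I.1.1 I.1.2)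

theorem pre_get (I : Inst) (i : ℕ) (j' : Job) :
    (pre I)[i]? = some j' ↔ ∃ j, I.2.2[i]? = some j ∧ TP.pj I.1.1 I.1.2 j = j' := by
  unfold pre
  rw [List.getElem?_map, Option.map_eq_some_iff]

theorem val_pos {x : Q} (h1 : 0 < x.1) (h2 : 0 < x.2) : 0 < val x := by
  unfold val
  have h3 : (0 : ℝ) < x.1 := by exact_mod_cast h1
  have h4 : (0 : ℝ) < x.2 := by exact_mod_cast h2
  positivity

theorem pv {I : Inst} (h : Valid I) : TP.PV I.2.1 (pre I) := by
  have hL := val_pos h.L_pos.1 h.L_pos.2
  have hδ := val_pos h.δ_pos.1 h.δ_pos.2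
  refine ⟨h.t_den, h.t_sorted, ?_, ?_, ?_⟩
  · intro j' hj'
    unfold pre at hj'
    rw [List.mem_map] at hj'
    obtain ⟨j, hj, rfl⟩ := hj'
    obtain ⟨p1, p2, p3, p4, p5⟩ := h.job_den j hj
    refine ⟨p1, p2, p3, ?_, ?_⟩
    · exact Nat.mul_pos (Nat.mul_pos h.δ_pos.2 p4) h.L_pos.1
    · exact Nat.mul_pos (Nat.mul_pos h.δ_pos.2 p5) h.L_pos.1
  · intro j' hj'
    unfold pre at hj'
    rw [List.mem_map] at hj'
    obtain ⟨j, hj, rfl⟩ := hj'
    have := h.job_time j hj
    simp only [val_eq] at this
    unfold TP.pj
    simp only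
    linarith
  · intro j' hj'
    unfold pre at hj'
    rw [List.mem_map] at hj'
    obtain ⟨j, hj, rfl⟩ := hj'
    have h1 := (h.job_loc j hj).1
    unfold TP.pj
    simp only
    rw [TP.val_rdiv, TP.val_rdiv, TP.val_rmul, TP.val_rmul]
    rw [val_eq] at hL hδ
    simp only [val_eq] at h1
    exact div_le_div_of_nonneg_right (mul_le_mul_of_nonneg_left h1 hδ.le) hL.le

theorem hit_iff {I : Inst} (h : Valid I) {j : Job} (hj : j ∈ I.2.2) (t σ : ℝ) :
    (path (val I.1.1) (val I.1.2) t ∩
      box σ (val j.2.2.1) (val j.2.2.2.1) (val j.2.2.2.2)).Nonempty ↔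
      TP.Hit t (TP.pj I.1.1 I.1.2 j) σ := by
  have hL := val_pos h.L_pos.1 h.L_pos.2
  have hδ := val_pos h.δ_pos.1 h.δ_pos.2
  rw [meets_iff hL hδ (val_nonneg' _) (h.job_loc j hj).1 (h.job_loc j hj).2 (val_nonneg' _)]
  unfold TP.Hit TP.pj
  simp only
  rw [TP.val_rdiv, TP.val_rdiv, TP.val_rmul, TP.val_rmul]
  rfl

/-- the paths which are not cancelled -/
def Free (I : Inst) (s : ℕ → ℝ) (k : ℕ) : Prop := k < I.2.1.length ∧ ¬ IsCancelled I s k

theorem free_iff {I : Inst} (h : Valid I) (s : ℕ → ℝ) {k : ℕ} (hk : k < I.2.1.length) :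
    ¬ IsCancelled I s k ↔
      ∀ i j, (pre I)[i]? = some j → ¬ TP.Hit (TP.tm I.2.1 (k + 1)) j (s i) := by
  have ht : I.2.1[k]? = some I.2.1[k] := List.getElem?_eq_getElem hk
  have htm : TP.tm I.2.1 (k + 1) = val I.2.1[k] := by
    unfold TP.tm
    rw [Nat.add_sub_cancel, List.getD_eq_getElem _ _ hk]
    rfl
  rw [htm]
  unfold IsCancelled
  constructor
  · intro hc i j' hj' hhit
    rw [pre_get] at hj'
    obtain ⟨j, hj, rfl⟩ := hj'
    apply hc
    exact ⟨_, ht, i, j, hj, (hit_iff h (List.mem_iff_getElem?.2 ⟨i, hj⟩) _ _).2 hhit⟩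
  · rintro hc ⟨t, ht', i, j, hj, hm⟩
    rw [ht] at ht'
    cases ht'
    exact hc i _ ((pre_get I i _).2 ⟨j, hj, rfl⟩)
      ((hit_iff h (List.mem_iff_getElem?.2 ⟨i, hj⟩) _ _).1 hm)

theorem cancelled_lt {I : Inst} {s : ℕ → ℝ} {k : ℕ} (h : IsCancelled I s k) :
    k < I.2.1.length := by
  obtain ⟨t, ht, _⟩ := h
  exact (List.getElem?_eq_some_iff.1 ht).1

open Classical in
theorem count_eq (I : Inst) (s : ℕ → ℝ) :
    numCancelled I s + ((Finset.range I.2.1.length).filter (fun k => ¬ IsCancelled I s k)).card =
      I.2.1.length := by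
  have h1 : {k | IsCancelled I s k} =
      (((Finset.range I.2.1.length).filter (fun k => IsCancelled I s k) : Finset ℕ) : Set ℕ) := by
    ext k
    rw [Finset.mem_coe, Finset.mem_filter, Finset.mem_range]
    exact ⟨fun h => ⟨cancelled_lt h, h⟩, fun h => h.2⟩
  unfold numCancelled
  rw [h1, Set.ncard_coe_finset]
  have h2 := Finset.card_filter_add_card_filter_not (s := Finset.range I.2.1.length)
    (fun k => IsCancelled I s k)
  rw [h2, Finset.card_range]

open Classical in
theorem kept_card {I : Inst} (h : Valid I) (s : ℕ → ℝ) :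
    2 + ((Finset.range I.2.1.length).filter (fun k => ¬ IsCancelled I s k)).card ≤
      (TP.kept I.2.1 (pre I) s).card := by
  have h1 : insert 0 (insert (I.2.1.length + 1)
      (((Finset.range I.2.1.length).filter (fun k => ¬ IsCancelled I s k)).image
        (fun k => k + 1))) ⊆ TP.kept I.2.1 (pre I) s := by
    intro x hx
    unfold TP.kept
    rw [Finset.mem_filter, Finset.mem_range]
    rw [Finset.mem_insert, Finset.mem_insert, Finset.mem_image] at hx
    rcases hx with h0 | h0 | ⟨k, hk, rfl⟩
    · exact ⟨by omega, Or.inl h0⟩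
    · exact ⟨by omega, Or.inr (Or.inl h0)⟩
    · rw [Finset.mem_filter, Finset.mem_range] at hk
      exact ⟨by omega, Or.inr (Or.inr ((free_iff h s hk.1).1 hk.2))⟩
  refine le_trans (le_of_eq ?_) (Finset.card_le_card h1)
  rw [Finset.card_insert_of_notMem, Finset.card_insert_of_notMem,
    Finset.card_image_of_injective _ (add_left_injective 1)]
  · omega
  · rw [Finset.mem_image]
    rintro ⟨k, hk, hk'⟩
    rw [Finset.mem_filter, Finset.mem_range] at hk
    omega
  · rw [Finset.mem_insert, Finset.mem_image]
    rintro (h0 | ⟨k, _, hk'⟩) <;> omega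

open Classical in
theorem optimal_algo {I : Inst} (h : Valid I) : Optimal I (TP.algo I) := by
  have hpv := pv h
  have hgood := TP.good hpv
  have halgo : TP.algo I = (pre I).map (fun j => TP.start I.2.1 (TP.keep I.2.1 (pre I)) j) := rfl
  have hlen : (TP.algo I).length = I.2.2.length := by
    rw [halgo, List.length_map]
    unfold pre
    rw [List.length_map]
  -- a first feasible schedule: all the jobs start at their release times
  have hrel : TP.Feas I.2.1 (pre I) 0 (I.2.1.length + 1)
      (TP.kept I.2.1 (pre I) (fun i => TP.val ((pre I).getD i default).1)) := by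
    apply TP.kept_feas hpv
    intro i j hj
    have h1 : (pre I).getD i default = j := by
      rw [List.getD_eq_getElem?_getD, hj]
      rfl
    rw [h1]
    exact ⟨le_rfl, hpv.window j (List.mem_iff_getElem?.2 ⟨i, hj⟩)⟩
  obtain ⟨hk1, hk2, _⟩ := TP.keep_spec hgood hrel
  have hget : ∀ i j, (pre I)[i]? = some j →
      val ((TP.algo I).getD i (0, 1)) = TP.val (TP.start I.2.1 (TP.keep I.2.1 (pre I)) j) := by
    intro i j hj
    rw [halgo, List.getD_eq_getElem?_getD, List.getElem?_map, hj]
    rfl
  have hspec : ∀ i j, (pre I)[i]? = some j → _ := fun i j hj =>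
    TP.start_spec hpv (List.mem_iff_getElem?.2 ⟨i, hj⟩) hk2
  refine ⟨hlen, ?_, ?_, ?_⟩
  · intro q hq
    rw [halgo, List.mem_map] at hq
    obtain ⟨j, hj, rfl⟩ := hq
    exact (TP.start_spec hpv hj hk2).1
  · intro i j hj
    have hj' : (pre I)[i]? = some (TP.pj I.1.1 I.1.2 j) := (pre_get I i _).2 ⟨j, hj, rfl⟩
    have h1 := hspec i _ hj'
    have h2 := hget i _ hj'
    simp only
    rw [h2, Set.mem_Icc]
    refine ⟨h1.2.1, ?_⟩
    have h3 := h1.2.2.1
    unfold TP.pj at h3 ⊢
    simp only at h3 ⊢
    rw [val_eq, val_eq]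
    linarith
  · intro s hs
    have hf : TP.Feas I.2.1 (pre I) 0 (I.2.1.length + 1) (TP.kept I.2.1 (pre I) s) := by
      apply TP.kept_feas hpv
      intro i j' hj'
      rw [pre_get] at hj'
      obtain ⟨j, hj, rfl⟩ := hj'
      have := hs i j hj
      rw [Set.mem_Icc] at this
      simp only [val_eq] at this
      unfold TP.pj
      simp only
      exact ⟨this.1, by linarith [this.2]⟩
    obtain ⟨_, _, h3⟩ := TP.keep_spec hgood hf
    have h4 := kept_card h s
    have h5 := count_eq I s
    set x := (fun i => val ((TP.algo I).getD i (0, 1))) with hx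
    have h6 := count_eq I x
    -- the kept points are not cancelled by the schedule
    have h7 : (TP.keep I.2.1 (pre I)).length ≤
        2 + ((Finset.range I.2.1.length).filter (fun k => ¬ IsCancelled I x k)).card := by
      rw [← List.toFinset_card_of_nodup hk1]
      have h8 : (TP.keep I.2.1 (pre I)).toFinset ⊆ insert 0 (insert (I.2.1.length + 1)
          (((Finset.range I.2.1.length).filter (fun k => ¬ IsCancelled I x k)).image
            (fun k => k + 1))) := by
        intro y hy
        have hy1 := (hk2.2.2.1 y hy).2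
        rw [Finset.mem_insert, Finset.mem_insert, Finset.mem_image]
        by_cases hy0 : y = 0
        · exact Or.inl hy0
        · by_cases hym : y = I.2.1.length + 1
          · exact Or.inr (Or.inl hym)
          · right; right
            refine ⟨y - 1, ?_, by omega⟩
            rw [Finset.mem_filter, Finset.mem_range]
            refine ⟨by omega, (free_iff h x (by omega)).2 ?_⟩
            intro i j hj
            rw [show y - 1 + 1 = y by omega, hx]
            simp only
            rw [hget i j hj]
            exact (hspec i j hj).2.2.2 y (List.mem_toFinset.1 hy) (by omega) (by omega)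
      refine (Finset.card_le_card h8).trans ?_
      refine (Finset.card_insert_le _ _).trans ?_
      have h9 := Finset.card_insert_le (I.2.1.length + 1)
        (((Finset.range I.2.1.length).filter (fun k => ¬ IsCancelled I x k)).image
          (fun k => k + 1))
      have h10 := Finset.card_image_le (s := (Finset.range I.2.1.length).filter
        (fun k => ¬ IsCancelled I x k)) (f := fun k => k + 1)
      omega
    omega

/-- **Unidirectional maintenance scheduling with parallel, unevenly spaced paths is solvable in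
polynomial time:** there is a polynomial-time algorithm which finds, for every instance, start times
of the jobs such that the number of cancelled paths is minimal (among all real schedules). -/
theorem result : ∃ F : List Bool → List Bool, PolyTime F ∧
    ∀ I : Inst, Valid I → ∃ x : List Q, F (bits I) = bits x ∧ Optimal I x := by
  have hp : Poly (fun w : List Bool => ((unbits Inst w).map TP.algo).getD []) := by
    have h1 : Poly (fun w : List Bool => unbits Inst w) := poly_unbits
    have h2 : Poly TP.algo := TP.poly_algo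
    refine NPC.Poly.optGetD (NPC.Poly.optMap_fp (o := fun w : List Bool => unbits Inst w)
      (h := fun _ I => TP.algo I) h1 (NPC.Poly.comp h2 (NPC.Poly.snd NPC.Poly.id)))
      (NPC.Poly.const _)
  refine ⟨_, polyTime_bits hp, ?_⟩
  intro I hI
  refine ⟨TP.algo I, ?_, optimal_algo hI⟩
  rw [unbits_bits]
  rfl

end Pool.Agent.Results.MP_2ca8f5_lc.TrainPathsInP
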